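import Pool.Agent.W5h31.MT.Fin

/-!
# Sums of `l < k` powers with generic coefficients

For `1 <= l < k` and almost every vector `α` of positive coefficients, at least `c x^(l/k)`
positive integers up to `x` are at distance at most `1/2` from a value of
`α_1 m_1^k + ... + α_l m_l^k` at nonnegative integers.
-/

namespace Pool.Agent.Results.MP_4e3e45_nt.GenericCoefficients

open MeasureTheory

/-- The positive integers up to `x` at distance at most `1/2` from a value of the form. -/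
def near {l : ℕ} (k : ℕ) (α : Fin l → ℝ) (x : ℝ) : Set ℕ :=
  {n | 1 ≤ n ∧ (n : ℝ) ≤ x ∧ ∃ m : Fin l → ℕ, |(∑ i, α i * (m i : ℝ) ^ k) - n| ≤ 1 / 2}

theorem result (k l : ℕ) (hl : 1 ≤ l) (hlk : l < k) :
    ∀ᵐ α : Fin l → ℝ, (∀ i, 0 < α i) → ∃ c x₀ : ℝ, 0 < c ∧ ∀ x : ℝ, x₀ ≤ x →
      c * x ^ ((l : ℝ) / k) ≤ ((near k α x).ncard : ℝ) := by
  obtain ⟨n, rfl⟩ : ∃ n, l = n + 1 := ⟨l - 1, by omega⟩
  exact W5h31.MT.below k n hlk

end Pool.Agent.Results.MP_4e3e45_nt.GenericCoefficients
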