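import Pool.Agent.W5h31.MT.Fin

/-!
# Sums of `k` powers with exponent `k` and generic coefficients

For almost every vector `α` of `k` positive coefficients, at least `c x / (1 + log x)^3`
positive integers up to `x` are at distance at most `1/2` from a value of
`α_1 m_1^k + ... + α_k m_k^k` at nonnegative integers.
-/

namespace Pool.Agent.Results.MP_4e3e45_nt.GenericDiagonalCase

open MeasureTheory

/-- The positive integers up to `x` at distance at most `1/2` from a value of the form. -/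
def near {l : ℕ} (k : ℕ) (α : Fin l → ℝ) (x : ℝ) : Set ℕ :=
  {n | 1 ≤ n ∧ (n : ℝ) ≤ x ∧ ∃ m : Fin l → ℕ, |(∑ i, α i * (m i : ℝ) ^ k) - n| ≤ 1 / 2}

theorem result (k : ℕ) (hk : 1 ≤ k) :
    ∀ᵐ α : Fin k → ℝ, (∀ i, 0 < α i) → ∃ c x₀ : ℝ, 0 < c ∧ ∀ x : ℝ, x₀ ≤ x →
      c * (x / (1 + Real.log x) ^ 3) ≤ ((near k α x).ncard : ℝ) :=
  W5h31.MT.diagonal k hk

end Pool.Agent.Results.MP_4e3e45_nt.GenericDiagonalCase
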